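import Mathlib
import Pool.Agent.N46.CS.REC
import Pool.Agent.N46.CS.NAT
import Pool.Agent.N46.CS.NOC1
import Pool.Agent.N46.CS.NOC2
import Pool.Agent.N46.CS.NOC3
import Pool.Agent.N46.CS.TR0
import Pool.Agent.N46.CS.NFR
import Pool.Agent.N46.CS.NFM
import Pool.Agent.N46.CS.NFB
import Pool.Agent.N46.CS.CVA
import Pool.Agent.N46.CS.CVM
import Pool.Agent.N46.CS.CNB
import Pool.Agent.N46.CS.CEN
import Pool.Agent.N46.CS.AFF
import Pool.Agent.N46.CS.DIA
import Pool.Agent.N46.CS.DIL
import Pool.Agent.N46.CS.DICH
import Pool.Agent.N46.CS.SPX
import Pool.Agent.N46.CS.SPC
import Pool.Agent.N46.CS.GCO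
import Pool.Agent.N46.CS.ELI
import Pool.Agent.N46.CS.ROO
import Pool.Agent.N46.CS.EXU
import Pool.Agent.N46.CS.IRR
import Pool.Agent.N46.CS.FOP
import Pool.Agent.N46.CS.FIN
import Pool.Agent.N46.CS.COR

/-!
# Stability of centers for generic foliations in a center component

Let `M(d)`, `d ≥ 2`, be the Zariski closure of the set of foliations of degree `d` having a center,
in the projective space of all forms `P dy - Q dx` with `deg P, deg Q ≤ d`, and let `X` be ANY
irreducible component of `M(d)`. Then there is a Zariski open subset `O` of the projective space such
that `U = X ∩ O` is dense in `X`, consists of foliations of degree `d`, and every center of every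
foliation in `U` is stable relative to `X`. This is a positive answer to Q1 of MP_d6d6e6_ag.

Idea: let `A` be the coordinate ring of (the cone over) `X`. Generically `P, Q` are coprime, so the
singular points of the generic foliation have coordinates algebraic over `A`, and over a finitely
generated extension `B` of `A` every singular point of every foliation in a Zariski open subset is the
specialization of one of finitely many pairs of elements of `B`. For each such pair the trace, the
determinant of the linear part and the obstructions (Poincaré-Lyapunov quantities) are elements of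
`B` (a domain): either all obstructions vanish, and then every specialization is a center (formal
first integral implies analytic center), or the inverse of the first nonzero one is adjoined to `B`,
and then no specialization is a center. Compactness of the specializations gives the stability.

Authors: helper102 (idea and paper proof), helper46 (statements, assembly), and for the parts the
helpers named in the claim file. The Zariski topology, the forms and `HasCenterAt` are those of
MP_9e47d4_ag.
-/

set_option autoImplicit false

namespace Pool.Agent.Results.MP_d6d6e6_ag.StableCenters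

open MvPolynomial Pool.Agent.Y215.CC Pool.Agent.N46.CS
open scoped LinearAlgebra.Projectivization

/-- The closed set `M(d)`. -/
def centerVariety (d : ℕ) : Set (ℙ ℂ (Frm d)) := closure (centers d)

/-- `X` is an irreducible component of `M`: a maximal irreducible subset of `M`. -/
def IsComponent {d : ℕ} (M X : Set (ℙ ℂ (Frm d))) : Prop :=
  Maximal (fun Z => IsIrreducible Z ∧ Z ⊆ M) X

/-- For every `d ≥ 2` and every irreducible component `X` of `M(d)` there is a Zariski open set `O`
with `X ∩ O` dense in `X` such that for every form `w` with class in `X ∩ O`: the polynomials of `w`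
are coprime and of maximal degree `d`, and all centers of `w` are stable relative to `X`. -/
theorem result (d : ℕ) (hd : 2 ≤ d) (X : Set (ℙ ℂ (Frm d)))
    (hX : IsComponent (centerVariety d) X) :
    ∃ O : Set (ℙ ℂ (Frm d)), IsOpen O ∧ closure (X ∩ O) = X ∧
      ∀ (w : Frm d) (hw : w ≠ 0), Projectivization.mk ℂ w hw ∈ X ∩ O →
        Fol w ∧ ∀ p : Fin 2 → ℂ, HasCenterAt (fP w) (fQ w) p → Stable X w p := by
  have hNAT := t_NAT
  have hCEN := t_CEN t_NFR t_NFM t_NFB t_CVA t_CVM t_CNB
  have hDIL := t_DIL t_REC hNAT t_NOC1 t_NOC2 t_NOC3 hCEN t_AFF
  have hDICH := t_DICH hDIL t_DIA t_TR0 hNAT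
  have hROO := t_ROO t_GCO t_ELI
  have hCOR := t_COR hDICH t_SPX t_SPC hROO
  exact t_FIN hCOR t_EXU t_IRR t_FOP d hd X hX

end Pool.Agent.Results.MP_d6d6e6_ag.StableCenters
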